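import Pool.Agent.W307.FK.Stm

set_option autoImplicit false

/-! Project FK: the regions `|a b (a - b)| ≤ W ^ 3`. -/

namespace Pool.Agent.W143.FKRegn

open Finset Pool.Agent.W307.RT Pool.Agent.W307.FK

/-- first coefficients -/
def aa : Fin 3 → ℤ := ![1, 0, 1]
/-- second coefficients -/
def bb : Fin 3 → ℤ := ![0, 1, -1]
/-- multiplicities -/
def mm : Fin 3 → ℕ := ![1, 1, 1]

lemma SS_nonneg (D : ℤ) (t : ℤ × ℤ) : 0 ≤ SS D t := by
  unfold SS
  split_ifs
  · positivity
  · exact le_rfl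

theorem regn_of (h1 : Pool.Agent.W307.FK.COVU) (h2 : Pool.Agent.W307.FK.AVGN) :
    Pool.Agent.W307.FK.REGN := by
  obtain ⟨B, C, hC, h⟩ := h1 (Fin 3) aa bb mm (by decide) (by decide) (by decide)
  obtain ⟨C', hC', h'⟩ := h2 B
  refine ⟨C * C', mul_nonneg hC hC', fun D hD W hW S hS => ?_⟩
  have hA : 0 ≤ C' * 128 ^ D.natAbs.primeFactors.card := by positivity
  have h3 := h (SS D) (C' * 128 ^ D.natAbs.primeFactors.card) hA (SS_nonneg D)
    (fun N1 N2 X hX hN1 hN2 => h' D N1 N2 X hD hX hN1 hN2) W hW S (fun t ht => ?_)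
  · rw [mul_assoc C C' _]
    exact h3
  · obtain ⟨k1, k2, k3, k4⟩ := hS t ht
    have e0 : fv aa bb t.1 t.2 0 = t.1 := by simp [fv, aa, bb]
    have e1 : fv aa bb t.1 t.2 1 = t.2 := by simp [fv, aa, bb]
    have e2 : fv aa bb t.1 t.2 2 = t.1 - t.2 := by simp [fv, aa, bb]; ring
    constructor
    · intro j
      fin_cases j
      · exact e0.trans_ne k1
      · exact e1.trans_ne k2
      · exact e2.trans_ne (sub_ne_zero.2 k3)
    · have hs : ∑ i, mm i = 3 := by decide
      have h0 : mm 0 = 1 := by decide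
      have h1' : mm 1 = 1 := by decide
      have h2' : mm 2 = 1 := by decide
      rw [hs, Fin.prod_univ_three, e0, e1, e2, h0, h1', h2', pow_one, pow_one, pow_one,
        ← Int.natAbs_mul, ← Int.natAbs_mul]
      exact k4

end Pool.Agent.W143.FKRegn
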